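import Pool.Agent.Helper35.HS3.GoalsA

/-!
# The weak Bochner identity (packet HS3-BOCH)
-/

namespace Pool.Agent.Helper20.HS3.BOCH

open Pool.Agent.Helper35.HS3
open MeasureTheory Set Filter Topology Metric
open scoped ContDiff

theorem lemA2 {u h : E → ℝ} (hu : ContDiff ℝ 2 u) (hh : ContDiff ℝ 1 h)
    (hlap : ∀ x, lap u x = h x) (j : Fin 3) {ζ : E → ℝ} (hζ : ContDiff ℝ 2 ζ)
    (hc : HasCompactSupport ζ) :
    ∫ x, (gdot (pd j u) ζ x + ζ x * pd j h x) = 0 := by
  have hζ1 : ContDiff ℝ 1 ζ := hζ.of_le (by norm_num)
  have hu1 : ContDiff ℝ 1 u := hu.of_le (by norm_num)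
  have i0 : ∀ i : Fin 3, Integrable (fun x => pd i (pd j u) x * pd i ζ x) := fun i =>
    ((continuous_pd_pd hu).mul (continuous_pd hζ1)).integrable_of_hasCompactSupport
      (hasCompactSupport_pd i hc).mul_left
  have i1 : Integrable (fun x => gdot (pd j u) ζ x) := by
    unfold gdot
    exact integrable_finsetSum _ fun i _ => i0 i
  have i2 : Integrable (fun x => ζ x * pd j h x) :=
    (hζ.continuous.mul (continuous_pd hh)).integrable_of_hasCompactSupport hc.mul_right
  have i3 : ∀ i : Fin 3, Integrable (fun x => pd i (pd j ζ) x * pd i u x) := fun i =>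
    ((continuous_pd_pd hζ).mul (continuous_pd hu1)).integrable_of_hasCompactSupport
      (hasCompactSupport_pd i (hasCompactSupport_pd j hc)).mul_right
  have e1 : ∫ x, gdot (pd j u) ζ x = ∑ i, ∫ x, pd i (pd j u) x * pd i ζ x := by
    unfold gdot
    rw [integral_finsetSum _ fun i _ => i0 i]
  have e2 : ∀ i, ∫ x, pd i (pd j u) x * pd i ζ x = - ∫ x, pd i (pd j ζ) x * pd i u x := by
    intro i
    have := integral_mul_pd j (contDiff_one_pd (i := i) hζ) (hasCompactSupport_pd i hc)
      (contDiff_one_pd (i := i) hu)
    calc ∫ x, pd i (pd j u) x * pd i ζ x = ∫ x, pd i ζ x * pd j (pd i u) x := by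
          refine integral_congr_ae (Eventually.of_forall fun x => ?_)
          simp only
          rw [pd_symm hu.contDiffAt i j]; ring
      _ = - ∫ x, pd i u x * pd j (pd i ζ) x := this
      _ = _ := by
          congr 1
          refine integral_congr_ae (Eventually.of_forall fun x => ?_)
          simp only
          rw [pd_symm hζ.contDiffAt j i]; ring
  have e3 := green1 (φ := pd j ζ) (v := u) (contDiff_one_pd hζ) (hasCompactSupport_pd j hc) hu
  have e4 : ∫ x, gdot (pd j ζ) u x = ∑ i, ∫ x, pd i (pd j ζ) x * pd i u x := by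
    unfold gdot
    rw [integral_finsetSum _ fun i _ => i3 i]
  have e5 := integral_mul_pd j hζ1 hc hh
  have e6 : ∫ x, pd j ζ x * lap u x = ∫ x, h x * pd j ζ x := by
    refine integral_congr_ae (Eventually.of_forall fun x => ?_)
    simp only
    rw [hlap x]; ring
  rw [integral_add i1 i2, e1, Finset.sum_congr rfl fun i _ => e2 i, Finset.sum_neg_distrib, ← e4,
    ← e3, e6, e5]
  ring

theorem pd_zero_of {η : E → ℝ} {R : ℝ} (h : ∀ x, R ≤ ‖x‖ → η x = 0) (i : Fin 3) {x : E}
    (hx : R < ‖x‖) : pd i η x = 0 := by
  have h1 : η =ᶠ[𝓝 x] fun _ => 0 := by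
    have h2 : {y : E | R < ‖y‖} ∈ 𝓝 x := (isOpen_lt continuous_const continuous_norm).mem_nhds hx
    filter_upwards [h2] with y hy using h y (le_of_lt hy)
  rw [pd_congr h1, pd_const]

theorem lemA1 (hapx : APX_stmt) {u h : E → ℝ} (hu : ContDiff ℝ 2 u) (hh : ContDiff ℝ 1 h)
    (hlap : ∀ x, lap u x = h x) (j : Fin 3) {ζ : E → ℝ} (hζ : ContDiff ℝ 1 ζ)
    (hc : HasCompactSupport ζ) :
    ∫ x, (gdot (pd j u) ζ x + ζ x * pd j h x) = 0 := by
  obtain ⟨R, hR, happ⟩ := hapx ζ hζ hc
  set w : E → ℝ := fun x => (∑ i, |pd i (pd j u) x|) + |pd j h x| with hwdef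
  have hw : Continuous w := by
    refine Continuous.add ?_ (continuous_pd hh).abs
    exact continuous_finsetSum _ fun i _ => (continuous_pd_pd hu).abs
  obtain ⟨W, hW⟩ := (isCompact_closedBall (0 : E) R).exists_bound_of_continuousOn
    hw.continuousOn
  have integ : ∀ η : E → ℝ, ContDiff ℝ 1 η → HasCompactSupport η →
      Integrable (fun x => gdot (pd j u) η x + η x * pd j h x) := by
    intro η hη hcη
    refine Integrable.add ?_ ?_
    · unfold gdot
      exact integrable_finsetSum _ fun i _ =>
        ((continuous_pd_pd hu).mul (continuous_pd hη)).integrable_of_hasCompactSupport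
          (hasCompactSupport_pd i hcη).mul_left
    · exact (hη.continuous.mul (continuous_pd hh)).integrable_of_hasCompactSupport hcη.mul_right
  set I := ∫ x, (gdot (pd j u) ζ x + ζ x * pd j h x) with hI
  have key : ∀ ε > 0, |I| ≤ ε * W * volume.real (closedBall (0 : E) R) := by
    intro ε hε
    obtain ⟨η, hη, hcη, hη0, hηε⟩ := happ ε hε
    have hη1 : ContDiff ℝ 1 η := hη.of_le (by norm_num)
    have e0 := lemA2 hu hh hlap j hη hcη
    have e1 : I = ∫ x, ((gdot (pd j u) ζ x + ζ x * pd j h x) -
        (gdot (pd j u) η x + η x * pd j h x)) := by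
      rw [integral_sub (integ ζ hζ hc) (integ η hη1 hcη), e0, sub_zero]
    have e2 : I = ∫ x in closedBall (0 : E) R, ((gdot (pd j u) ζ x + ζ x * pd j h x) -
        (gdot (pd j u) η x + η x * pd j h x)) := by
      rw [e1]
      symm
      refine setIntegral_eq_integral_of_forall_compl_eq_zero fun x hx => ?_
      have hx' : R < ‖x‖ := by simpa using hx
      have a1 : ∀ i, pd i ζ x = 0 := fun i => pd_zero_of hR i hx'
      have a2 : ∀ i, pd i η x = 0 := fun i => pd_zero_of hη0 i hx'
      simp [gdot, a1, a2, hR x hx'.le, hη0 x hx'.le]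
    rw [e2, ← Real.norm_eq_abs]
    refine norm_setIntegral_le_of_norm_le_const ?_ ?_
    · exact (isCompact_closedBall (0 : E) R).measure_lt_top
    · intro x hx
      have hx1 := hW x hx
      have e3 : (gdot (pd j u) ζ x + ζ x * pd j h x) - (gdot (pd j u) η x + η x * pd j h x) =
          (∑ i, pd i (pd j u) x * (pd i ζ x - pd i η x)) + (ζ x - η x) * pd j h x := by
        unfold gdot
        simp only [mul_sub, Finset.sum_sub_distrib]
        ring
      rw [e3, Real.norm_eq_abs]
      have e4 : |∑ i, pd i (pd j u) x * (pd i ζ x - pd i η x)| ≤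
          ∑ i, |pd i (pd j u) x| * ε := by
        refine (Finset.abs_sum_le_sum_abs _ _).trans (Finset.sum_le_sum fun i _ => ?_)
        rw [abs_mul]
        refine mul_le_mul_of_nonneg_left ?_ (abs_nonneg _)
        rw [abs_sub_comm]
        exact (hηε x).2 i
      have e5 : |(ζ x - η x) * pd j h x| ≤ |pd j h x| * ε := by
        rw [abs_mul, mul_comm]
        refine mul_le_mul_of_nonneg_left ?_ (abs_nonneg _)
        rw [abs_sub_comm]
        exact (hηε x).1
      calc _ ≤ |∑ i, pd i (pd j u) x * (pd i ζ x - pd i η x)| + |(ζ x - η x) * pd j h x| :=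
            abs_add_le _ _
        _ ≤ (∑ i, |pd i (pd j u) x| * ε) + |pd j h x| * ε := add_le_add e4 e5
        _ = ε * w x := by rw [hwdef, ← Finset.sum_mul]; ring
        _ ≤ ε * W := by
            refine mul_le_mul_of_nonneg_left ?_ hε.le
            exact (le_abs_self _).trans hx1
  by_contra hne
  have hpos : 0 < |I| := abs_pos.mpr hne
  set K := |W * volume.real (closedBall (0 : E) R)| + 1 with hK
  have hKpos : 0 < K := by positivity
  have h1 := key (|I| / (2 * K)) (by positivity)
  have h2 : |I| / (2 * K) * W * volume.real (closedBall (0 : E) R) ≤ |I| / (2 * K) * K := by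
    rw [mul_assoc]
    refine mul_le_mul_of_nonneg_left ?_ (by positivity)
    exact (le_abs_self _).trans (by rw [hK]; linarith)
  have h3 : |I| / (2 * K) * K = |I| / 2 := by field_simp
  linarith

theorem proof (hapx : APX_stmt) : BOCH_stmt := by
  intro f a u hf hu hlap
  have hu1 : ContDiff ℝ 1 u := hu.of_le (by norm_num)
  set h : E → ℝ := fun x => f (u x) with hh_def
  have hh : ContDiff ℝ 1 h := hf.comp hu1
  have hFp : ContDiff ℝ 1 (Fp f a) := by
    have h1 : deriv (Fp f a) = f := by
      funext t; exact (hasDerivAt_Fp hf.continuous a t).deriv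
    have : ContDiff ℝ (0 + 1) (Fp f a) := by
      rw [contDiff_succ_iff_deriv]
      refine ⟨fun t => (hasDerivAt_Fp hf.continuous a t).differentiableAt, by simp, ?_⟩
      rw [h1]; exact hf.of_le (by norm_num)
    simpa using this
  have hFu : ContDiff ℝ 1 (fun x => Fp f a (u x)) := hFp.comp hu1
  have hPP : ContDiff ℝ 1 (PP f a u) := by
    unfold PP
    exact ((contDiff_gsq hu).div_const 2).sub hFu
  have hpd : ∀ i x, pd i (PP f a u) x =
      ∑ j, pd j u x * pd i (pd j u) x - f (u x) * pd i u x := by
    intro i x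
    have e1 : pd i (gsq u) x = ∑ j, 2 * (pd j u x * pd i (pd j u) x) := by
      have e2 : HasFDerivAt (gsq u) (∑ j, (2 * pd j u x) • fderiv ℝ (pd j u) x) x := by
        unfold gsq
        refine HasFDerivAt.fun_sum fun j _ => ?_
        have := (diff_pd hu j x).hasFDerivAt.pow 2
        simpa using this
      rw [HasFDerivAt.pd e2]
      simp only [pd_def]
      rw [_root_.sum_apply]
      refine Finset.sum_congr rfl fun j _ => ?_
      simp only [_root_.smul_apply, smul_eq_mul]
      ring
    have e3 : PP f a u = fun y => (1 / 2) * gsq u y - Fp f a (u y) := by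
      funext y; unfold PP; ring
    rw [e3, pd_sub ((diff_of_one (contDiff_gsq hu) x).const_mul _) (diff_of_one hFu x),
      pd_const_mul _ (diff_of_one (contDiff_gsq hu) x), e1,
      pd_comp (hasDerivAt_Fp hf.continuous a (u x)) (diff_of_one hu1 x), ← Finset.mul_sum]
    ring
  refine ⟨hPP, hpd, ?_⟩
  intro φ hφ hc
  -- the terms of step 2
  have hA : ∀ j : Fin 3, ∫ x, (pd j u x * gdot (pd j u) φ x + φ x * gsq (pd j u) x +
      φ x * pd j u x * pd j h x) = 0 := by
    intro j
    have e := lemA1 hapx hu hh hlap j (ζ := fun x => φ x * pd j u x)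
      (hφ.mul (contDiff_one_pd hu)) hc.mul_right
    rw [← e]
    refine integral_congr_ae (Eventually.of_forall fun x => ?_)
    simp only
    have e1 : gdot (pd j u) (fun x => φ x * pd j u x) x =
        pd j u x * gdot (pd j u) φ x + φ x * gsq (pd j u) x := by
      unfold gdot gsq
      rw [Finset.mul_sum, Finset.mul_sum, ← Finset.sum_add_distrib]
      refine Finset.sum_congr rfl fun i _ => ?_
      rw [pd_mul (diff_of_one hφ x) (diff_pd hu j x)]
      ring
    rw [e1]
  -- the terms of step 3
  have hB : ∀ i : Fin 3, ∫ x, (φ x * pd i (fun y => h y * pd i u y) x +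
      h x * pd i u x * pd i φ x) = 0 := by
    intro i
    have hc1 : ContDiff ℝ 1 (fun y => h y * pd i u y) := hh.mul (contDiff_one_pd hu)
    have e := integral_mul_pd i hφ hc hc1
    rw [integral_add, e]
    · ring
    · exact (hφ.continuous.mul (continuous_pd hc1)).integrable_of_hasCompactSupport hc.mul_right
    · exact (hc1.continuous.mul (continuous_pd hφ)).integrable_of_hasCompactSupport
        (hasCompactSupport_pd i hc).mul_left
  have iA : ∀ j : Fin 3, Integrable (fun x => pd j u x * gdot (pd j u) φ x +
      φ x * gsq (pd j u) x + φ x * pd j u x * pd j h x) := by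
    intro j
    refine ((Integrable.add ?_ ?_).add ?_)
    · have : Integrable (fun x => ∑ i, pd j u x * (pd i (pd j u) x * pd i φ x)) :=
        integrable_finsetSum _ fun i _ =>
          ((continuous_pd hu1).mul ((continuous_pd_pd hu).mul
            (continuous_pd hφ))).integrable_of_hasCompactSupport
            (hasCompactSupport_pd i hc).mul_left.mul_left
      refine this.congr (Eventually.of_forall fun x => ?_)
      simp only [gdot, Finset.mul_sum]
    · exact (hφ.continuous.mul
        (continuous_gsq (contDiff_one_pd hu))).integrable_of_hasCompactSupport hc.mul_right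
    · exact ((hφ.continuous.mul (continuous_pd hu1)).mul
        (continuous_pd hh)).integrable_of_hasCompactSupport hc.mul_right.mul_right
  have iB : ∀ i : Fin 3, Integrable (fun x => φ x * pd i (fun y => h y * pd i u y) x +
      h x * pd i u x * pd i φ x) := by
    intro i
    have hc1 : ContDiff ℝ 1 (fun y => h y * pd i u y) := hh.mul (contDiff_one_pd hu)
    refine Integrable.add ?_ ?_
    · exact (hφ.continuous.mul (continuous_pd hc1)).integrable_of_hasCompactSupport hc.mul_right
    · exact (hc1.continuous.mul (continuous_pd hφ)).integrable_of_hasCompactSupport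
        (hasCompactSupport_pd i hc).mul_left
  have i1 : Integrable (fun x => gdot (PP f a u) φ x) := by
    unfold gdot
    exact integrable_finsetSum _ fun i _ =>
      ((continuous_pd hPP).mul (continuous_pd hφ)).integrable_of_hasCompactSupport
        (hasCompactSupport_pd i hc).mul_left
  have i2 : Integrable (fun x => φ x * (hsq u x - f (u x) ^ 2)) :=
    (hφ.continuous.mul ((continuous_hsq hu).sub
      (hh.continuous.pow 2))).integrable_of_hasCompactSupport hc.mul_right
  have hpt : ∀ x, gdot (PP f a u) φ x + φ x * (hsq u x - f (u x) ^ 2) =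
      (∑ j, (pd j u x * gdot (pd j u) φ x + φ x * gsq (pd j u) x +
        φ x * pd j u x * pd j h x)) -
      ∑ i, (φ x * pd i (fun y => h y * pd i u y) x + h x * pd i u x * pd i φ x) := by
    intro x
    have e1 : ∀ i, pd i (fun y => h y * pd i u y) x =
        h x * pd i (pd i u) x + pd i u x * pd i h x := fun i =>
      pd_mul (diff_of_one hh x) (diff_pd hu i x)
    have e2 : lap u x = h x := hlap x
    have e3 : h x = f (u x) := rfl
    unfold gdot hsq gsq
    simp only [hpd, e1]
    unfold lap at e2
    rw [← e3]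
    simp only [Fin.sum_univ_three] at e2 ⊢
    linear_combination (φ x * h x) * e2
  have hfin : ∫ x, (gdot (PP f a u) φ x + φ x * (hsq u x - f (u x) ^ 2)) = 0 := by
    rw [integral_congr_ae (Eventually.of_forall hpt),
      integral_sub (integrable_finsetSum _ fun j _ => iA j)
        (integrable_finsetSum _ fun i _ => iB i),
      integral_finsetSum _ fun j _ => iA j, integral_finsetSum _ fun i _ => iB i,
      Finset.sum_congr rfl fun j _ => hA j, Finset.sum_congr rfl fun i _ => hB i]
    simp
  rw [integral_add i1 i2] at hfin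
  linarith

end Pool.Agent.Helper20.HS3.BOCH
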