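import Pool.Agent.Helper35.HS3.GoalsC

/-!
# Rigidity under the gradient bound (packet HS3-RIG)
-/

namespace Pool.Agent.Helper20.HS3.RIG

open Pool.Agent.Helper35.HS3
open MeasureTheory Set Filter Topology Metric
open scoped ContDiff

/-- the primitive of `1 / √(c + 2 F)` -/
noncomputable def Hc (f : ℝ → ℝ) (a c t : ℝ) : ℝ := ∫ s in (0 : ℝ)..t, 1 / √(c + 2 * Fp f a s)

theorem Hc_zero (f : ℝ → ℝ) (a c : ℝ) : Hc f a c 0 = 0 := by simp [Hc]

theorem continuous_Fp {f : ℝ → ℝ} {a A K : ℝ} (h : Nl f a A K) : Continuous (Fp f a) :=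
  h.Fp_contDiff.continuous

theorem continuousOn_int {f : ℝ → ℝ} {a A K : ℝ} (h : Nl f a A K) (c : ℝ) {J : Set ℝ}
    (hpos : ∀ t ∈ J, 0 < c + 2 * Fp f a t) :
    ContinuousOn (fun s => 1 / √(c + 2 * Fp f a s)) J := by
  have h1 : Continuous (fun s => √(c + 2 * Fp f a s)) :=
    (continuous_const.add (continuous_const.mul (continuous_Fp h))).sqrt
  exact continuousOn_const.div h1.continuousOn fun t ht => (Real.sqrt_pos.mpr (hpos t ht)).ne'

theorem hasDerivAt_Hc {f : ℝ → ℝ} {a A K : ℝ} (h : Nl f a A K) (c : ℝ) {J : Set ℝ}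
    (hJo : IsOpen J) (hJc : Convex ℝ J) (h0 : (0 : ℝ) ∈ J)
    (hpos : ∀ t ∈ J, 0 < c + 2 * Fp f a t) {t : ℝ} (ht : t ∈ J) :
    HasDerivAt (Hc f a c) (1 / √(c + 2 * Fp f a t)) t := by
  have hc := continuousOn_int h c hpos
  have hsub : uIcc 0 t ⊆ J := by
    rw [← segment_eq_uIcc]
    exact hJc.segment_subset h0 ht
  have hm : Measurable (fun s => 1 / √(c + 2 * Fp f a s)) := by
    have h1 : Continuous (fun s => √(c + 2 * Fp f a s)) :=
      (continuous_const.add (continuous_const.mul (continuous_Fp h))).sqrt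
    exact measurable_const.div h1.measurable
  refine intervalIntegral.integral_hasDerivAt_right ?_ ?_ ?_
  · exact (hc.mono hsub).intervalIntegrable
  · exact hm.stronglyMeasurable.stronglyMeasurableAtFilter
  · exact hc.continuousAt (hJo.mem_nhds ht)

theorem strictMonoOn_Hc {f : ℝ → ℝ} {a A K : ℝ} (h : Nl f a A K) (c : ℝ) {J : Set ℝ}
    (hJo : IsOpen J) (hJc : Convex ℝ J) (h0 : (0 : ℝ) ∈ J)
    (hpos : ∀ t ∈ J, 0 < c + 2 * Fp f a t) : StrictMonoOn (Hc f a c) J := by
  refine strictMonoOn_of_deriv_pos hJc ?_ ?_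
  · exact fun t ht => (hasDerivAt_Hc h c hJo hJc h0 hpos ht).continuousAt.continuousWithinAt
  · intro t ht
    rw [hJo.interior_eq] at ht
    rw [(hasDerivAt_Hc h c hJo hJc h0 hpos ht).deriv]
    have := Real.sqrt_pos.mpr (hpos t ht)
    positivity

theorem lap_coord (x : E) : lap (fun y : E => y 0) x = 0 := by
  unfold lap
  refine Finset.sum_eq_zero fun i _ => ?_
  have : pd i (fun y : E => y 0) = fun _ => if (0 : Fin 3) = i then (1 : ℝ) else 0 := by
    funext y; exact pd_coord i 0 y
  rw [this, pd_const]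

/-- Step (0) of the proof. -/
theorem step0 (hliou : LIOU_stmt) (honed : ONED_stmt) {f : ℝ → ℝ} {u : E → ℝ}
    (hu2 : ContDiff ℝ 2 u) (hlap : ∀ x, lap u x = f (u x)) {H : ℝ → ℝ}
    (h1 : ContDiff ℝ 2 (fun x => H (u x))) (h2 : ∀ x, 0 ≤ lap (fun y => H (u y)) x)
    (h3 : ∀ x, gsq (fun y => H (u y)) x ≤ 1) (B : ℝ) (hB : ∀ x : E, -B ≤ x 0 - H (u x))
    (hinj : ∀ x y, H (u x) = H (u y) → u x = u y) :
    ∃ V : ℝ → ℝ, ContDiff ℝ 2 V ∧ (∀ s, deriv (deriv V) s = f (V s)) ∧
      ∀ x : E, u x = V (x 0) := by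
  have hlip : ∀ x y, |H (u x) - H (u y)| ≤ 1 * ‖x - y‖ :=
    lipschitz_of_gsq (u := fun y => H (u y)) (h1.of_le (by norm_num)) zero_le_one
      (fun x => by simpa using h3 x)
  have key := hliou (fun x => x 0 - H (u x)) B ((contDiff_coord 0).sub h1)
    (by
      intro x
      rw [lap_sub (contDiff_coord 0).contDiffAt h1.contDiffAt, lap_coord]
      linarith [h2 x])
    hB
    (by
      intro x z t ht hz
      have e1 : (x + t • bv 0 + z) 0 = x 0 + t := by
        simp [hz]
      have e2 := hlip (x + t • bv 0 + z) x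
      have e3 : x + t • bv 0 + z - x = t • bv 0 + z := by abel
      rw [e3, one_mul] at e2
      have e4 : ‖t • bv 0 + z‖ ^ 2 = t ^ 2 + ‖z‖ ^ 2 := by
        rw [norm_sq_eq3, norm_sq_eq3]
        simp [hz]
        ring
      have e5 : ‖t • bv 0 + z‖ ≤ t + ‖z‖ ^ 2 / (2 * t) := by
        have hnn : 0 ≤ t + ‖z‖ ^ 2 / (2 * t) := by positivity
        refine le_of_sq_le_sq ?_ hnn
        rw [e4]
        have : (t + ‖z‖ ^ 2 / (2 * t)) ^ 2 =
            t ^ 2 + ‖z‖ ^ 2 + (‖z‖ ^ 2 / (2 * t)) ^ 2 := by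
          field_simp
          ring
        rw [this]
        have := sq_nonneg (‖z‖ ^ 2 / (2 * t))
        linarith
      have e6 := (abs_le.mp e2).2
      simp only [e1]
      linarith)
  refine honed f u hu2 hlap fun x => ?_
  refine hinj _ _ ?_
  have h5 := key x (x 0 • bv 0)
  have e7 : (x 0 • bv 0 : E) 0 = x 0 := by simp
  simp only [e7] at h5
  linarith

theorem unify (hpsi : PSI_stmt) (hliou : LIOU_stmt) (honed : ONED_stmt) {f : ℝ → ℝ}
    {a A K : ℝ} {u : E → ℝ} (hN : Nl f a A K) (hS : Sl f u) (c : ℝ) (J : Set ℝ)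
    (hJo : IsOpen J) (hJc : Convex ℝ J) (h0 : (0 : ℝ) ∈ J) (huJ : ∀ x, u x ∈ J)
    (hpos : ∀ t ∈ J, 0 < c + 2 * Fp f a t) (hg : ∀ x, gsq u x ≤ c + 2 * Fp f a (u x)) (B : ℝ)
    (hB0 : 0 ≤ B) (hB : ∀ x : E, x 0 ≤ 0 → Hc f a c (u x) ≤ x 0 + B) :
    ∃ V : ℝ → ℝ, ContDiff ℝ 2 V ∧ (∀ s, deriv (deriv V) s = f (V s)) ∧
      ∀ x : E, u x = V (x 0) := by
  have hmono := strictMonoOn_Hc hN c hJo hJc h0 hpos
  obtain ⟨h1, h2, h3⟩ := hpsi f a A K u c J (Hc f a c) hN hS.smooth hS.eq hJo huJ hpos hg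
    (fun t ht => hasDerivAt_Hc hN c hJo hJc h0 hpos ht)
  refine step0 hliou honed hS.smooth hS.eq h1 h2 h3 B ?_ ?_
  · intro x
    rcases le_total (x 0) 0 with hx | hx
    · linarith [hB x hx]
    · have hlip : ∀ x y, |Hc f a c (u x) - Hc f a c (u y)| ≤ 1 * ‖x - y‖ :=
        lipschitz_of_gsq (u := fun y => Hc f a c (u y)) (h1.of_le (by norm_num)) zero_le_one
          (fun x => by simpa using h3 x)
      have e1 := (abs_le.mp (hlip x (x - x 0 • bv 0))).2
      have e2 : x - (x - x 0 • bv 0) = x 0 • bv 0 := by abel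
      have e3 : ‖x 0 • bv 0‖ = x 0 := by
        rw [norm_smul, norm_bv, mul_one, Real.norm_eq_abs, abs_of_nonneg hx]
      rw [e2, e3] at e1
      have e4 : u (x - x 0 • bv 0) ≤ 0 := hS.neg _ (by simp)
      have e5 : Hc f a c (u (x - x 0 • bv 0)) ≤ Hc f a c 0 :=
        hmono.monotoneOn (huJ _) h0 e4
      rw [Hc_zero] at e5
      linarith
  · intro x y hxy
    exact hmono.injOn (huJ x) (huJ y) hxy

theorem Fp_quad {f : ℝ → ℝ} {a A K : ℝ} (h : Nl f a A K) (t : ℝ) :
    2 * Fp f a t ≤ K * max 0 (t - a) ^ 2 := by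
  rcases le_total t a with ht | ht
  · rw [h.Fp_left ht, mul_zero]
    have := h.K_pos
    positivity
  · rw [max_eq_right (by linarith)]
    have h1 : Fp f a t ≤ ∫ s in a..t, K * (s - a) := by
      unfold Fp
      refine intervalIntegral.integral_mono_on ht (h.cont.intervalIntegrable _ _)
        ((by fun_prop : Continuous fun s : ℝ => K * (s - a)).intervalIntegrable _ _) ?_
      intro s hs
      have := h.le_lin s
      rwa [max_eq_right (by linarith [hs.1])] at this
    have h2 : ∫ s in a..t, K * (s - a) = K * (t - a) ^ 2 / 2 := by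
      have hd : ∀ s ∈ uIcc a t, HasDerivAt (fun s : ℝ => K * (s - a) ^ 2 / 2) (K * (s - a)) s := by
        intro s _
        have := ((((hasDerivAt_id s).sub_const a).pow 2).const_mul K).div_const 2
        refine this.congr_deriv ?_
        simp
        ring
      rw [intervalIntegral.integral_eq_sub_of_hasDerivAt hd
        ((by fun_prop : Continuous fun s : ℝ => K * (s - a)).intervalIntegrable _ _)]
      simp
    rw [h2] at h1
    linarith

theorem Fp_pos {f : ℝ → ℝ} {a A K : ℝ} (h : Nl f a A K) (ha : a < 0)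
    (hf : ∀ t, a < t → t ≤ 0 → 0 < f t) {t : ℝ} (ht : a < t) : 0 < Fp f a t := by
  have h1 : 0 < Fp f a (min t 0) := by
    unfold Fp
    refine intervalIntegral.intervalIntegral_pos_of_pos_on (h.cont.intervalIntegrable _ _) ?_
      (lt_min ht ha)
    intro x hx
    exact hf x hx.1 (hx.2.le.trans (min_le_right _ _))
  exact h1.trans_le (h.Fp_mono (min_le_left _ _))

theorem proof : GRON_stmt → PSI_stmt → SUPG_stmt → MOLL_stmt → ODE1_stmt → LIOU_stmt →
    ONED_stmt → RIG_stmt := by
  intro hgron hpsi hsupg hmoll hode hliou honed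
  intro f a A K u β hN hS hβ hneg hg hor
  rcases hβ.eq_or_lt with hβ0 | hβpos
  · -- the case β = 0
    subst hβ0
    have hf : ∀ t, a < t → t ≤ 0 → 0 < f t := by
      rcases hor with h | h
      · exact absurd h (lt_irrefl _)
      · exact h
    have hg0 : ∀ x, gsq u x ≤ 0 + 2 * Fp f a (u x) := fun x => by simpa using hg x
    have hK := hN.K_pos
    by_cases hex : ∃ x₁, u x₁ ≤ a
    · obtain ⟨x₁, hx₁⟩ := hex
      have hc := hgron u a (√K) (hS.smooth.of_le (by norm_num)) (Real.sqrt_nonneg _)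
        (by
          intro x
          rw [mul_pow, Real.sq_sqrt hK.le]
          have h1 := hg0 x
          have h2 := Fp_quad hN (u x)
          linarith) x₁ hx₁
      refine honed f u hS.smooth hS.eq fun x => ?_
      rw [hc x, hc (x 0 • bv 0)]
    · push Not at hex
      have hu0 : u 0 ≤ 0 := hS.neg 0 (by simp)
      have ha0 : a < 0 := (hex 0).trans_le hu0
      have hFpos : ∀ t, a < t → 0 < Fp f a t := fun t ht => Fp_pos hN ha0 hf ht
      have hpos : ∀ t ∈ Ioi a, 0 < 0 + 2 * Fp f a t := by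
        intro t ht
        have := hFpos t ht
        linarith
      have hmono := strictMonoOn_Hc hN 0 isOpen_Ioi (convex_Ioi a) ha0 hpos
      set L := √(2 * Fp f a A) with hL
      have hFA : 0 ≤ 2 * Fp f a A := by
        have := hN.Fp_nonneg A
        linarith
      have hlip : ∀ x y, |u x - u y| ≤ L * ‖x - y‖ := by
        refine lipschitz_of_gsq (hS.smooth.of_le (by norm_num)) (Real.sqrt_nonneg _) ?_
        intro x
        rw [hL, Real.sq_sqrt hFA]
        have h1 := hg0 x
        have h2 := hN.Fp_le (u x)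
        linarith
      obtain ⟨g, hg1, hg2, hg3, -, hg5⟩ := hsupg f a A K u L hN hS (Real.sqrt_nonneg _) hlip
      have hga : ∀ s, a < g s := by
        intro s
        have h1 := hex (s • bv 0)
        have h2 := hg2 (s • bv 0)
        have h3 : (s • bv 0 : E) 0 = s := by simp
        rw [h3] at h2
        exact h1.trans_le h2
      have hGex := hmoll g (fun s => f (g s)) L (K * L) (Real.sqrt_nonneg _)
        (mul_nonneg hK.le (Real.sqrt_nonneg _)) hg1
        (by
          intro s t
          refine (hN.lip _ _).trans ?_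
          rw [mul_assoc]
          exact mul_le_mul_of_nonneg_left (hg1 s t) hK.le)
        (fun s => hN.nonneg _) hg5
      have hO := hode f a A K g (Hc f a 0) hN hf (fun s hs => ⟨hga s, hg3 s hs⟩) hGex
        (by
          intro t ht
          have := hasDerivAt_Hc hN 0 isOpen_Ioi (convex_Ioi a) ha0 hpos ht
          simpa using this)
      refine unify hpsi hliou honed hN hS 0 (Ioi a) isOpen_Ioi (convex_Ioi a) ha0 hex hpos hg0 0
        le_rfl ?_
      intro x hx
      have h1 := hO (x 0) 0 hx le_rfl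
      have h2 : Hc f a 0 (g 0) ≤ Hc f a 0 0 := hmono.monotoneOn (hga 0) ha0 (hg3 0 le_rfl)
      have h3 : Hc f a 0 (u x) ≤ Hc f a 0 (g (x 0)) :=
        hmono.monotoneOn (hex x) (hga _) (hg2 x)
      rw [Hc_zero] at h2
      linarith
  · -- the case β > 0
    have hpos : ∀ t ∈ (univ : Set ℝ), 0 < β ^ 2 + 2 * Fp f a t := by
      intro t _
      have := hN.Fp_nonneg t
      positivity
    have hmono := strictMonoOn_Hc hN (β ^ 2) isOpen_univ convex_univ (mem_univ 0) hpos
    have hA := hN.A_pos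
    refine unify hpsi hliou honed hN hS (β ^ 2) univ isOpen_univ convex_univ (mem_univ 0)
      (fun x => mem_univ _) hpos hg (A / β) (by positivity) ?_
    intro x hx
    have hux : u x ≤ β * x 0 := hneg x hx
    have hux0 : u x ≤ 0 := hux.trans (mul_nonpos_of_nonneg_of_nonpos hβpos.le hx)
    have hH : Hc f a (β ^ 2) (u x) ≤ (u x + A) / β := by
      rcases le_total (u x) (-A) with h | h
      · have e1 : Hc f a (β ^ 2) (u x) = Hc f a (β ^ 2) (-A) +
            ∫ s in (-A)..(u x), 1 / √(β ^ 2 + 2 * Fp f a s) := by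
          have hci : Continuous (fun s => 1 / √(β ^ 2 + 2 * Fp f a s)) :=
            continuousOn_univ.mp (continuousOn_int hN (β ^ 2) hpos)
          unfold Hc
          rw [intervalIntegral.integral_add_adjacent_intervals (hci.intervalIntegrable _ _)
            (hci.intervalIntegrable _ _)]
        have e2 : ∫ s in (-A)..(u x), 1 / √(β ^ 2 + 2 * Fp f a s) =
            ∫ s in (-A)..(u x), 1 / β := by
          refine intervalIntegral.integral_congr fun s hs => ?_
          rw [uIcc_of_ge h] at hs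
          have e3 : Fp f a s = 0 := hN.Fp_left (hs.2.trans hN.neg_A)
          simp only [e3, mul_zero, add_zero, Real.sqrt_sq hβpos.le]
        have e4 : Hc f a (β ^ 2) (-A) ≤ Hc f a (β ^ 2) 0 :=
          hmono.monotoneOn (mem_univ _) (mem_univ _) (by linarith)
        rw [Hc_zero] at e4
        rw [e1, e2]
        simp only [intervalIntegral.integral_const, smul_eq_mul]
        have e5 : (u x - -A) * (1 / β) = (u x + A) / β := by ring
        rw [e5]
        linarith
      · have e4 : Hc f a (β ^ 2) (u x) ≤ Hc f a (β ^ 2) 0 :=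
          hmono.monotoneOn (mem_univ _) (mem_univ _) hux0
        rw [Hc_zero] at e4
        have : 0 ≤ (u x + A) / β := div_nonneg (by linarith) hβpos.le
        linarith
    refine hH.trans ?_
    rw [div_le_iff₀ hβpos]
    have : (x 0 + A / β) * β = β * x 0 + A := by
      field_simp
    rw [this]
    linarith

end Pool.Agent.Helper20.HS3.RIG
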